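import Pool.Agent.Helper4.AE.St

/-!
# Project AE, module TRF: transfer of the parabolas to `ZMod m`
-/

set_option autoImplicit false

namespace Pool.Agent.Helper51.AE

open Pool.Agent.Helper4.AE
open Finset

/-- the code of a pair of residues -/
def fz {p : ℕ} (z : ZMod p × ZMod p) : ℕ := z.1.val + 2 * p * z.2.val

/-- the shifts -/
def dz (p : ℕ) (e : ℤ × ℤ) : ℤ := p * e.1 + 2 * p ^ 2 * e.2

/-- the index set of the shifts -/
noncomputable def II : Finset (ℤ × ℤ) := Finset.Icc (-1) 1 ×ˢ Finset.Icc (-1) 1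

lemma card_II : II.card = 9 := by
  rw [II, Finset.card_product, Int.card_Icc]; rfl

lemma zero_mem_II : ((0 : ℤ), (0 : ℤ)) ∈ II := by
  rw [II, Finset.mem_product, Finset.mem_Icc]
  constructor
  · constructor <;> norm_num
  · constructor <;> norm_num

lemma fz_add_mod {p : ℕ} [NeZero p] (z w : ZMod p × ZMod p) :
    (fz z + fz w) % (2 * p) = z.1.val + w.1.val ∧
    (fz z + fz w) / (2 * p) = z.2.val + w.2.val := by
  have hp : 0 < p := Nat.pos_of_ne_zero (NeZero.ne p)
  have h1 := ZMod.val_lt z.1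
  have h2 := ZMod.val_lt w.1
  have e : fz z + fz w = (z.1.val + w.1.val) + (2 * p) * (z.2.val + w.2.val) := by
    simp only [fz]; ring
  have hlt : z.1.val + w.1.val < 2 * p := by omega
  rw [e]
  constructor
  · rw [Nat.add_mul_mod_self_left, Nat.mod_eq_of_lt hlt]
  · rw [Nat.add_mul_div_left _ _ (by omega), Nat.div_eq_of_lt hlt, Nat.zero_add]

lemma fz_add_lt {p : ℕ} [NeZero p] (z w : ZMod p × ZMod p) : fz z + fz w < 4 * p ^ 2 := by
  have hp : 0 < p := Nat.pos_of_ne_zero (NeZero.ne p)
  have h1 := ZMod.val_lt z.1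
  have h2 := ZMod.val_lt w.1
  have h3 := ZMod.val_lt z.2
  have h4 := ZMod.val_lt w.2
  have e : fz z + fz w = (z.1.val + w.1.val) + (2 * p) * (z.2.val + w.2.val) := by
    simp only [fz]; ring
  rw [e]
  have h5 : z.2.val + w.2.val + 2 ≤ 2 * p := by omega
  have h6 : z.1.val + w.1.val < 2 * p := by omega
  calc (z.1.val + w.1.val) + (2 * p) * (z.2.val + w.2.val) < 2 * p + (2 * p) * (z.2.val + w.2.val) := by omega
    _ = (2 * p) * (z.2.val + w.2.val + 1) := by ring
    _ ≤ (2 * p) * (2 * p) := Nat.mul_le_mul_left _ (by omega)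
    _ = 4 * p ^ 2 := by ring

lemma card_res (m : ℕ) [NeZero m] (c : ZMod m) :
    ((range (8 * m)).filter fun N : ℕ => (N : ZMod m) = c).card ≤ 8 := by
  have hm : 0 < m := Nat.pos_of_ne_zero (NeZero.ne m)
  calc ((range (8 * m)).filter fun N : ℕ => (N : ZMod m) = c).card ≤ (range 8).card := by
        apply Finset.card_le_card_of_injOn (fun N => N / m)
        · intro N hN
          have hN' := Finset.mem_coe.1 hN
          rw [Finset.mem_filter, Finset.mem_range] at hN'
          exact Finset.mem_coe.2 (Finset.mem_range.2 (Nat.div_lt_of_lt_mul (by linarith [hN'.1, Nat.mul_comm 8 m])))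
        · intro N hN M hM h
          have hN' := Finset.mem_coe.1 hN
          have hM' := Finset.mem_coe.1 hM
          rw [Finset.mem_filter] at hN' hM'
          have e1 : N % m = M % m := by
            rw [← ZMod.val_natCast, ← ZMod.val_natCast, hN'.2, hM'.2]
          have h' : N / m = M / m := h
          rw [← Nat.div_add_mod N m, ← Nat.div_add_mod M m, e1, h']
    _ = 8 := Finset.card_range 8

lemma card_pairs (p m : ℕ) [NeZero m] [NeZero p] (B : Finset (ZMod p × ZMod p))
    (hB : ∀ z : ZMod p × ZMod p, ((B ×ˢ B).filter fun q => q.1 + q.2 = z).card ≤ 18)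
    (h8 : 4 * p ^ 2 ≤ 8 * m) (c : ZMod m) :
    ((B ×ˢ B).filter fun q => ((fz q.1 + fz q.2 : ℕ) : ZMod m) = c).card ≤ 144 := by
  have key : ((B ×ˢ B).filter fun q => ((fz q.1 + fz q.2 : ℕ) : ZMod m) = c).card ≤
      18 * ((range (8 * m)).filter fun N : ℕ => (N : ZMod m) = c).card := by
    apply Finset.card_le_mul_card_image_of_maps_to (f := fun q => fz q.1 + fz q.2)
    · intro q hq
      rw [Finset.mem_filter] at hq
      rw [Finset.mem_filter, Finset.mem_range]
      exact ⟨lt_of_lt_of_le (fz_add_lt _ _) h8, hq.2⟩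
    · intro N _
      refine le_trans (Finset.card_le_card ?_)
        (hB ((((N % (2 * p) : ℕ) : ZMod p)), ((N / (2 * p) : ℕ) : ZMod p)))
      intro q hq
      rw [Finset.mem_filter, Finset.mem_filter] at hq
      rw [Finset.mem_filter]
      refine ⟨hq.1.1, ?_⟩
      obtain ⟨e1, e2⟩ := fz_add_mod q.1 q.2
      have h : fz q.1 + fz q.2 = N := hq.2
      rw [h] at e1 e2
      rw [e1, e2]
      ext
      · simp
      · simp
  refine le_trans key ?_
  have := card_res m c
  omega

theorem hTRF : StTRF := by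
  intro hPAR p m _ hp h11 hm4 h8
  obtain ⟨B, hB⟩ := hPAR p hp h11
  have : NeZero p := ⟨hp.ne_zero⟩
  have hp0 : 0 < p := hp.pos
  set g : (ZMod p × ZMod p) × (ℤ × ℤ) → ZMod m := fun q => (((fz q.1 : ℕ) : ℤ) + dz p q.2 : ℤ) with hg
  refine ⟨(B ×ˢ II).image g, ?_⟩
  intro n
  constructor
  · -- lower bound
    have hnlt : n.val < 4 * p ^ 2 := lt_of_lt_of_le (ZMod.val_lt n) hm4
    set s₀ := n.val % (2 * p) with hs
    set t₀ := n.val / (2 * p) with ht
    have hN : n.val = s₀ + 2 * p * t₀ := (Nat.mod_add_div _ _).symm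
    have hs0 : s₀ < 2 * p := Nat.mod_lt _ (by omega)
    have ht0 : t₀ < 2 * p := by
      apply Nat.div_lt_of_lt_mul
      calc n.val < 4 * p ^ 2 := hnlt
        _ = 2 * p * (2 * p) := by ring
    obtain ⟨⟨z, w⟩, hzw⟩ := Finset.card_pos.1 (hB ((s₀ : ZMod p), (t₀ : ZMod p))).1
    rw [Finset.mem_filter, Finset.mem_product] at hzw
    obtain ⟨⟨hz, hw⟩, hsum⟩ := hzw
    have key : ∀ (a b : ZMod p) (s : ℕ), s < 2 * p → a + b = (s : ZMod p) →
        ∃ α : ℤ, α ∈ Finset.Icc (-1 : ℤ) 1 ∧ (s : ℤ) = a.val + b.val + p * α := by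
      intro a b s hs h
      have ha := ZMod.val_lt a
      have hb := ZMod.val_lt b
      have hd : ((p : ℕ) : ℤ) ∣ (s : ℤ) - (a.val + b.val) := by
        rw [← ZMod.intCast_zmod_eq_zero_iff_dvd]
        push_cast
        rw [ZMod.natCast_zmod_val, ZMod.natCast_zmod_val, h, sub_self]
      obtain ⟨α, hα⟩ := hd
      refine ⟨α, ?_, by linarith⟩
      have hp0' : (0 : ℤ) < p := by exact_mod_cast hp0
      have h1 : (s : ℤ) < 2 * p := by exact_mod_cast hs
      have h2 : (a.val : ℤ) < p := by exact_mod_cast ha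
      have h3 : (b.val : ℤ) < p := by exact_mod_cast hb
      have h4 : (0 : ℤ) ≤ (a.val : ℤ) := by positivity
      have h5 : (0 : ℤ) ≤ (b.val : ℤ) := by positivity
      have h6 : (0 : ℤ) ≤ (s : ℤ) := by positivity
      rw [Finset.mem_Icc]
      constructor
      · by_contra hlt
        have : α ≤ -2 := by omega
        nlinarith
      · by_contra hlt
        have : 2 ≤ α := by omega
        nlinarith
    obtain ⟨α, hα, eα⟩ := key z.1 w.1 s₀ hs0 (congrArg Prod.fst hsum)
    obtain ⟨β, hβ, eβ⟩ := key z.2 w.2 t₀ ht0 (congrArg Prod.snd hsum)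
    apply Finset.card_pos.2
    refine ⟨(g (z, (0, 0)), g (w, (α, β))), ?_⟩
    rw [Finset.mem_filter, Finset.mem_product]
    refine ⟨⟨Finset.mem_image_of_mem _ (Finset.mem_product.2 ⟨hz, zero_mem_II⟩),
      Finset.mem_image_of_mem _ (Finset.mem_product.2 ⟨hw, Finset.mem_product.2 ⟨hα, hβ⟩⟩)⟩, ?_⟩
    have e : (((fz z : ℕ) : ℤ) + dz p (0, 0)) + (((fz w : ℕ) : ℤ) + dz p (α, β)) = (n.val : ℤ) := by
      have hN' : (n.val : ℤ) = s₀ + 2 * p * t₀ := by exact_mod_cast hN
      rw [hN', eα, eβ]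
      simp only [fz, dz]
      push_cast
      ring
    simp only [hg]
    rw [← Int.cast_add, e]
    simp
  · -- upper bound
    have h1 : ((((B ×ˢ II).image g) ×ˢ ((B ×ˢ II).image g)).filter fun q => q.1 + q.2 = n) ⊆
        ((((B ×ˢ II) ×ˢ (B ×ˢ II)).filter fun t => g t.1 + g t.2 = n).image fun t => (g t.1, g t.2)) := by
      intro q hq
      rw [Finset.mem_filter, Finset.mem_product, Finset.mem_image, Finset.mem_image] at hq
      obtain ⟨⟨⟨a, ha, ha'⟩, ⟨b, hb, hb'⟩⟩, hab⟩ := hq
      rw [Finset.mem_image]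
      refine ⟨(a, b), ?_, ?_⟩
      · rw [Finset.mem_filter, Finset.mem_product]
        exact ⟨⟨ha, hb⟩, by rw [ha', hb']; exact hab⟩
      · exact Prod.ext ha' hb'
    have h2 : sg ((B ×ˢ II).image g) n ≤
        (((B ×ˢ II) ×ˢ (B ×ˢ II)).filter fun t => g t.1 + g t.2 = n).card :=
      le_trans (Finset.card_le_card h1) Finset.card_image_le
    have h3 : (((B ×ˢ II) ×ˢ (B ×ˢ II)).filter fun t => g t.1 + g t.2 = n).card ≤
        144 * (II ×ˢ II).card := by
      apply Finset.card_le_mul_card_image_of_maps_to (f := fun t => (t.1.2, t.2.2))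
      · intro t ht
        rw [Finset.mem_filter, Finset.mem_product, Finset.mem_product, Finset.mem_product] at ht
        exact Finset.mem_product.2 ⟨ht.1.1.2, ht.1.2.2⟩
      · intro e _
        refine le_trans ?_ (card_pairs p m B (fun z => (hB z).2) h8
          (n - ((dz p e.1 : ℤ) : ZMod m) - ((dz p e.2 : ℤ) : ZMod m)))
        apply Finset.card_le_card_of_injOn (fun t => (t.1.1, t.2.1))
        · intro t ht
          have ht' := Finset.mem_coe.1 ht
          rw [Finset.mem_filter, Finset.mem_filter, Finset.mem_product, Finset.mem_product,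
            Finset.mem_product] at ht'
          obtain ⟨⟨⟨⟨h1, _⟩, ⟨h2, _⟩⟩, h3⟩, h4⟩ := ht'
          apply Finset.mem_coe.2
          rw [Finset.mem_filter, Finset.mem_product]
          refine ⟨⟨h1, h2⟩, ?_⟩
          have e1 : t.1.2 = e.1 := congrArg Prod.fst h4
          have e2 : t.2.2 = e.2 := congrArg Prod.snd h4
          rw [← h3, ← e1, ← e2]
          simp only [hg]
          push_cast
          ring
        · intro t ht t' ht' h
          have hh := Finset.mem_coe.1 ht
          have hh' := Finset.mem_coe.1 ht'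
          rw [Finset.mem_filter] at hh hh'
          have e1 : (t.1.2, t.2.2) = (t'.1.2, t'.2.2) := hh.2.trans hh'.2.symm
          have e2 : (t.1.1, t.2.1) = (t'.1.1, t'.2.1) := h
          rw [Prod.mk.injEq] at e1 e2
          exact Prod.ext (Prod.ext e2.1 e1.1) (Prod.ext e2.2 e1.2)
    have h4 : (II ×ˢ II).card = 81 := by rw [Finset.card_product, card_II]
    rw [h4] at h3
    omega

end Pool.Agent.Helper51.AE
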